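import Mathlib

/-!
# MP_32da07_an: the lower estimate of the Kobayashi distance fails at a cusp

The bounded complete Reinhardt domain `D = {(z, w) : |w| < 1, |z| < (1 - |w|)^2}` is pseudoconvex: the
function `|z| / (1 - |w|)^2 = ∑ (l + 1) |z w^l|` is plurisubharmonic. At the boundary point
`ζ₀ = (0, 1)` we have `N(ζ₀) = 0`, because `D` contains the origin. The disc `ζ ↦ (0, ζ)` shows that
`k_D(0, (0, r)) ≤ (1/2) log ((1 + r) / (1 - r))`, while `d_D(0, r) ≤ (1 - r)^2`. So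
`k_D(0, z) ≥ -(1/2) log d_D(z) + C` fails near `ζ₀` for every `C`.
-/

set_option autoImplicit false

namespace Pool.Agent.Results.MP_32da07_an.CuspCounterexample

open Filter Topology Metric
open scoped ENNReal

/-- `ℂ^n` with the Euclidean norm -/
abbrev Cn (n : ℕ) : Type := EuclideanSpace ℂ (Fin n)

/-- `u` satisfies the sub-mean value inequality on `D` on all closed discs `a + ζ b`, `|ζ| ≤ 1`,
contained in `D`; a continuous function on the open set `D` is plurisubharmonic if and only if it has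
this property -/
def SubMean {n : ℕ} (D : Set (Cn n)) (u : Cn n → ℝ) : Prop :=
  ∀ a b : Cn n, (∀ ζ : ℂ, ‖ζ‖ ≤ 1 → a + ζ • b ∈ D) →
    u a ≤ Real.circleAverage (fun ζ : ℂ => u (a + ζ • b)) 0 1

/-- `D` is pseudoconvex: it is open and has a continuous plurisubharmonic exhaustion function -/
def IsPseudoconvex {n : ℕ} (D : Set (Cn n)) : Prop :=
  IsOpen D ∧ ∃ u : Cn n → ℝ, ContinuousOn u D ∧ SubMean D u ∧ ∀ c : ℝ, IsCompact {z ∈ D | u z ≤ c}

/-- `D` is a Reinhardt set: it is invariant under `(z_j) ↦ (e^{iθ_j} z_j)` -/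
def IsReinhardt {n : ℕ} (D : Set (Cn n)) : Prop :=
  ∀ z ∈ D, ∀ θ : Fin n → ℝ, WithLp.toLp 2 (fun j => Complex.exp (θ j * Complex.I) * z j) ∈ D

/-- the Poincaré distance `p(a, b) = (1/2) log ((1 + m) / (1 - m))`, `m = |a - b| / |1 - conj a b|`, of the
unit disc -/
noncomputable def poincare (a b : ℂ) : ℝ :=
  (1 / 2) * Real.log ((1 + ‖a - b‖ / ‖1 - (starRingEnd ℂ) a * b‖) /
    (1 - ‖a - b‖ / ‖1 - (starRingEnd ℂ) a * b‖))

/-- `(p_0, …, p_m)`, `(f_j)`, `(a_j)`, `(b_j)` is a chain of analytic discs in `D` from `z` to `w`: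
`p_0 = z`, `p_m = w`, and `f_j : 𝔻 → D` is holomorphic with `f_j(a_j) = p_j`, `f_j(b_j) = p_{j+1}` -/
def IsChain {n : ℕ} (D : Set (Cn n)) (z w : Cn n) (m : ℕ) (p : Fin (m + 1) → Cn n)
    (f : Fin m → ℂ → Cn n) (a b : Fin m → ℂ) : Prop :=
  p 0 = z ∧ p (Fin.last m) = w ∧ ∀ j : Fin m, DifferentiableOn ℂ (f j) (ball 0 1) ∧
    Set.MapsTo (f j) (ball 0 1) D ∧ a j ∈ ball (0 : ℂ) 1 ∧ b j ∈ ball (0 : ℂ) 1 ∧
    f j (a j) = p j.castSucc ∧ f j (b j) = p j.succ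

/-- the Kobayashi (pseudo)distance `k_D(z, w) ∈ [0, ∞]`: the infimum of `∑_j p(a_j, b_j)` over all chains
of analytic discs in `D` from `z` to `w` -/
noncomputable def kobayashi {n : ℕ} (D : Set (Cn n)) (z w : Cn n) : ℝ≥0∞ :=
  ⨅ (m : ℕ) (p : Fin (m + 1) → Cn n) (f : Fin m → ℂ → Cn n) (a : Fin m → ℂ) (b : Fin m → ℂ)
    (_ : IsChain D z w m p f a b), ENNReal.ofReal (∑ j, poincare (a j) (b j))

/-- `d_D(z)`, the Euclidean distance from `z` to the boundary of `D` -/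
noncomputable def bdist {n : ℕ} (D : Set (Cn n)) (z : Cn n) : ℝ := infDist z (frontier D)

/-- `N(ζ₀)`, the number of `j` with `ζ₀_j = 0` such that `D` does not meet the hyperplane `z_j = 0` -/
noncomputable def N {n : ℕ} (D : Set (Cn n)) (ζ₀ : Cn n) : ℕ :=
  Set.ncard {j : Fin n | ζ₀ j = 0 ∧ ∀ z ∈ D, z j ≠ 0}

/-- `k_D(z₀, z) ≥ h(d_D(z)) + C` for `z ∈ D` near `ζ₀` (for some neighbourhood of `ζ₀` and some real `C`);
as `k_D ≥ 0` a negative right-hand side is replaced by `0` -/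
def LowerEstimate {n : ℕ} (D : Set (Cn n)) (z₀ ζ₀ : Cn n) (h : ℝ → ℝ) : Prop :=
  ∃ U ∈ 𝓝 ζ₀, ∃ C : ℝ, ∀ z ∈ D ∩ U, ENNReal.ofReal (h (bdist D z) + C) ≤ kobayashi D z₀ z

/-- the statement of Q1 -/
def Q1 : Prop :=
  ∀ (n : ℕ), 1 ≤ n → ∀ D : Set (Cn n), IsOpen D → IsConnected D → IsPseudoconvex D → IsReinhardt D →
    ∀ z₀ ∈ D, ∀ ζ₀ ∈ frontier D,
      (N D ζ₀ = 0 → LowerEstimate D z₀ ζ₀ (fun t => -(1 / 2) * Real.log t)) ∧
      (1 ≤ N D ζ₀ → LowerEstimate D z₀ ζ₀ (fun t => (1 / 2) * Real.log (-Real.log t)))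

/-- the domain -/
def D : Set (Cn 2) := {p | ‖p 1‖ < 1 ∧ ‖p 0‖ < (1 - ‖p 1‖) ^ 2}

lemma cont0 : Continuous (fun p : Cn 2 => p 0) := by fun_prop
lemma cont1 : Continuous (fun p : Cn 2 => p 1) := by fun_prop

lemma D_open : IsOpen D := by
  have h1 : IsOpen {p : Cn 2 | ‖p 1‖ < 1} := isOpen_lt (by fun_prop) (by fun_prop)
  have h2 : IsOpen {p : Cn 2 | ‖p 0‖ < (1 - ‖p 1‖) ^ 2} := isOpen_lt (by fun_prop) (by fun_prop)
  exact h1.inter h2

lemma zero_mem : (0 : Cn 2) ∈ D := by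
  constructor <;> simp

lemma D_star : StarConvex ℝ 0 D := by
  rw [starConvex_zero_iff]
  rintro p ⟨h1, h2⟩ t ht0 ht1
  have e0 : ‖(t • p) 0‖ = t * ‖p 0‖ := by
    simp [abs_of_nonneg ht0]
  have e1 : ‖(t • p) 1‖ = t * ‖p 1‖ := by
    simp [abs_of_nonneg ht0]
  have hn0 := norm_nonneg (p 0)
  have hn1 := norm_nonneg (p 1)
  have h3 : t * ‖p 1‖ ≤ ‖p 1‖ := mul_le_of_le_one_left hn1 ht1
  have h4 : t * ‖p 0‖ ≤ ‖p 0‖ := mul_le_of_le_one_left hn0 ht1
  refine ⟨?_, ?_⟩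
  · rw [e1]; linarith
  · rw [e0, e1]
    have : (1 - ‖p 1‖) ^ 2 ≤ (1 - t * ‖p 1‖) ^ 2 :=
      pow_le_pow_left₀ (by linarith) (by linarith) 2
    linarith

lemma D_conn : IsConnected D := (D_star.isPathConnected zero_mem).isConnected

lemma D_reinhardt : IsReinhardt D := by
  rintro z ⟨h1, h2⟩ θ
  have e : ∀ j, ‖Complex.exp (θ j * Complex.I) * z j‖ = ‖z j‖ := by
    intro j
    rw [norm_mul, Complex.norm_exp_ofReal_mul_I, one_mul]
  refine ⟨?_, ?_⟩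
  · show ‖Complex.exp (θ 1 * Complex.I) * z 1‖ < 1
    rw [e]; exact h1
  · show ‖Complex.exp (θ 0 * Complex.I) * z 0‖ < (1 - ‖Complex.exp (θ 1 * Complex.I) * z 1‖) ^ 2
    rw [e, e]; exact h2

lemma D_bdd : Bornology.IsBounded D := by
  rw [isBounded_iff_forall_norm_le]
  refine ⟨2, ?_⟩
  rintro p ⟨h1, h2⟩
  have hn0 := norm_nonneg (p 0)
  have hn1 := norm_nonneg (p 1)
  rw [EuclideanSpace.norm_eq, Real.sqrt_le_left (by norm_num), Fin.sum_univ_two]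
  have h3 : (1 - ‖p 1‖) ^ 2 ≤ 1 := by nlinarith
  nlinarith

/-- the exhaustion function -/
noncomputable def u (p : Cn 2) : ℝ :=
  (1 - ‖p 0‖ * ((1 - ‖p 1‖)⁻¹) ^ 2)⁻¹ + (1 - ‖p 1‖)⁻¹

lemma aux {p : Cn 2} (hp : p ∈ D) : 0 < 1 - ‖p 1‖ ∧ 0 < 1 - ‖p 0‖ * ((1 - ‖p 1‖)⁻¹) ^ 2 := by
  obtain ⟨h1, h2⟩ := hp
  have h3 : 0 < 1 - ‖p 1‖ := by linarith
  refine ⟨h3, ?_⟩
  have h4 : ‖p 0‖ * ((1 - ‖p 1‖)⁻¹) ^ 2 < 1 := by
    rw [inv_pow, ← div_eq_mul_inv, div_lt_one (by positivity)]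
    exact h2
  linarith

lemma u_cont : ContinuousOn u D := by
  intro p hp
  obtain ⟨h1, h2⟩ := aux hp
  refine ContinuousAt.continuousWithinAt ?_
  unfold u
  refine ContinuousAt.add (ContinuousAt.inv₀ ?_ h2.ne') (ContinuousAt.inv₀ (by fun_prop) h1.ne')
  refine ContinuousAt.sub continuousAt_const (ContinuousAt.mul (by fun_prop) ?_)
  have h3 : ContinuousAt (fun p : Cn 2 => (1 - ‖p 1‖)⁻¹) p :=
    ContinuousAt.inv₀ (by fun_prop) h1.ne'
  exact h3.pow 2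

/-- finite sums of moduli of entire functions -/
def Pos (F : Cn 2 → ℝ) : Prop :=
  ∃ (ι : Type) (_ : Fintype ι) (f : ι → Cn 2 → ℂ), (∀ i, Differentiable ℂ (f i)) ∧
    ∀ p, F p = ∑ i, ‖f i p‖

lemma pos_norm {f : Cn 2 → ℂ} (hf : Differentiable ℂ f) : Pos (fun p => ‖f p‖) :=
  ⟨Unit, inferInstance, fun _ => f, fun _ => hf, fun p => by simp⟩

lemma pos_add {F G : Cn 2 → ℝ} (hF : Pos F) (hG : Pos G) : Pos (fun p => F p + G p) := by
  obtain ⟨ι, _, f, hf, hF⟩ := hF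
  obtain ⟨κ, _, g, hg, hG⟩ := hG
  refine ⟨ι ⊕ κ, inferInstance, Sum.elim f g, ?_, ?_⟩
  · rintro (i | i)
    · exact hf i
    · exact hg i
  · intro p
    show F p + G p = _
    rw [Fintype.sum_sum_type, hF, hG]
    rfl

lemma pos_mul {F G : Cn 2 → ℝ} (hF : Pos F) (hG : Pos G) : Pos (fun p => F p * G p) := by
  obtain ⟨ι, _, f, hf, hF⟩ := hF
  obtain ⟨κ, _, g, hg, hG⟩ := hG
  refine ⟨ι × κ, inferInstance, fun q p => f q.1 p * g q.2 p, fun q => (hf q.1).mul (hg q.2), ?_⟩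
  intro p
  show F p * G p = _
  rw [hF, hG, Finset.sum_mul_sum, Fintype.sum_prod_type]
  simp only [norm_mul]

lemma pos_one : Pos (fun _ => 1) := by
  have := pos_norm (f := fun _ => (1 : ℂ)) (differentiable_const _)
  simpa using this

lemma pos_pow {F : Cn 2 → ℝ} (hF : Pos F) (k : ℕ) : Pos (fun p => F p ^ k) := by
  induction k with
  | zero => simpa using pos_one
  | succ k ih => simpa only [pow_succ] using pos_mul ih hF

lemma pos_sum {F : ℕ → Cn 2 → ℝ} (hF : ∀ i, Pos (F i)) (m : ℕ) :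
    Pos (fun p => ∑ i ∈ Finset.range m, F i p) := by
  induction m with
  | zero =>
    have := pos_norm (f := fun _ => (0 : ℂ)) (differentiable_const _)
    simpa using this
  | succ m ih => simpa only [Finset.sum_range_succ] using pos_add ih (hF m)

lemma pos_cont {F : Cn 2 → ℝ} (hF : Pos F) : Continuous F := by
  obtain ⟨ι, _, f, hf, hF⟩ := hF
  have : F = fun p => ∑ i, ‖f i p‖ := funext hF
  rw [this]
  exact continuous_finsetSum _ fun i _ => (hf i).continuous.norm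

lemma pos_mean {F : Cn 2 → ℝ} (hF : Pos F) (a b : Cn 2) :
    F a ≤ Real.circleAverage (fun ζ : ℂ => F (a + ζ • b)) 0 1 := by
  obtain ⟨ι, _, f, hf, hF⟩ := hF
  have hline : Differentiable ℂ (fun ζ : ℂ => a + ζ • b) := by fun_prop
  have h1 : (fun ζ : ℂ => F (a + ζ • b)) = ∑ i, fun ζ : ℂ => ‖f i (a + ζ • b)‖ := by
    funext ζ
    rw [hF, Finset.sum_apply]
  rw [h1, Real.circleAverage_sum, hF]
  · refine Finset.sum_le_sum fun i _ => ?_
    have hg : Differentiable ℂ (fun ζ : ℂ => f i (a + ζ • b)) := (hf i).comp hline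
    have h2 : Real.circleAverage (fun ζ : ℂ => f i (a + ζ • b)) 0 1 = f i (a + (0 : ℂ) • b) :=
      hg.diffContOnCl.circleAverage
    rw [zero_smul, add_zero] at h2
    rw [← h2]
    unfold Real.circleAverage
    rw [norm_smul, smul_eq_mul, Real.norm_of_nonneg (by positivity)]
    refine mul_le_mul_of_nonneg_left ?_ (by positivity)
    exact intervalIntegral.norm_integral_le_integral_norm (by positivity)
  · intro i _
    have : Continuous (fun ζ : ℂ => ‖f i (a + ζ • b)‖) :=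
      ((hf i).continuous.comp hline.continuous).norm
    exact this.continuousOn.circleIntegrable zero_le_one

/-- the partial sums of the exhaustion function -/
noncomputable def S (M k : ℕ) (p : Cn 2) : ℝ :=
  (∑ i ∈ Finset.range k, (‖p 0‖ * (∑ l ∈ Finset.range M, ‖p 1‖ ^ l) ^ 2) ^ i) +
    ∑ l ∈ Finset.range M, ‖p 1‖ ^ l

lemma S_pos (M k : ℕ) : Pos (S M k) := by
  have d0 : Differentiable ℂ (fun p : Cn 2 => p 0) := by fun_prop
  have d1 : Differentiable ℂ (fun p : Cn 2 => p 1) := by fun_prop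
  have h1 : Pos (fun p : Cn 2 => ∑ l ∈ Finset.range M, ‖p 1‖ ^ l) :=
    pos_sum (fun l => pos_pow (pos_norm d1) l) M
  exact pos_add (pos_sum (fun i => pos_pow (pos_mul (pos_norm d0) (pos_pow h1 2)) i) k) h1

lemma geom_le {x : ℝ} (h0 : 0 ≤ x) (h1 : x < 1) (M : ℕ) :
    ∑ l ∈ Finset.range M, x ^ l ≤ (1 - x)⁻¹ := by
  rw [← tsum_geometric_of_lt_one h0 h1]
  exact (summable_geometric_of_lt_one h0 h1).sum_le_tsum _ (fun i _ => pow_nonneg h0 i)

lemma S_le (M k : ℕ) {p : Cn 2} (hp : p ∈ D) : S M k p ≤ u p := by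
  obtain ⟨h1, h2⟩ := aux hp
  have hn0 := norm_nonneg (p 0)
  have hn1 := norm_nonneg (p 1)
  have g1 := geom_le hn1 (by linarith) M
  have g0 : 0 ≤ ∑ l ∈ Finset.range M, ‖p 1‖ ^ l := Finset.sum_nonneg fun i _ => pow_nonneg hn1 i
  have g2 : ‖p 0‖ * (∑ l ∈ Finset.range M, ‖p 1‖ ^ l) ^ 2 ≤ ‖p 0‖ * ((1 - ‖p 1‖)⁻¹) ^ 2 :=
    mul_le_mul_of_nonneg_left (pow_le_pow_left₀ g0 g1 2) hn0
  have g3 : 0 ≤ ‖p 0‖ * (∑ l ∈ Finset.range M, ‖p 1‖ ^ l) ^ 2 := by positivity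
  have g4 := geom_le g3 (by linarith) k
  unfold S u
  refine add_le_add (g4.trans ?_) g1
  exact inv_anti₀ h2 (by linarith)

lemma u_mean : SubMean D u := by
  intro a b hab
  have ha : a ∈ D := by simpa using hab 0 (by simp)
  obtain ⟨h1, h2⟩ := aux ha
  have hn0 := norm_nonneg (a 0)
  have hn1 := norm_nonneg (a 1)
  have hcirc : ContinuousOn (fun ζ : ℂ => u (a + ζ • b)) (sphere 0 1) := by
    refine u_cont.comp (by fun_prop) ?_
    intro ζ hζ
    exact hab ζ (by rw [mem_sphere_zero_iff_norm] at hζ; exact hζ.le)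
  have key : ∀ M k : ℕ, S M k a ≤ Real.circleAverage (fun ζ : ℂ => u (a + ζ • b)) 0 1 := by
    intro M k
    refine (pos_mean (S_pos M k) a b).trans ?_
    refine Real.circleAverage_mono ?_ ?_ ?_
    · exact ((pos_cont (S_pos M k)).comp (by fun_prop)).continuousOn.circleIntegrable zero_le_one
    · exact hcirc.circleIntegrable zero_le_one
    · intro ζ hζ
      rw [abs_one, mem_sphere_zero_iff_norm] at hζ
      exact S_le M k (hab ζ hζ.le)
  -- `k → ∞`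
  have key2 : ∀ M : ℕ, (1 - ‖a 0‖ * (∑ l ∈ Finset.range M, ‖a 1‖ ^ l) ^ 2)⁻¹ +
      ∑ l ∈ Finset.range M, ‖a 1‖ ^ l ≤ Real.circleAverage (fun ζ : ℂ => u (a + ζ • b)) 0 1 := by
    intro M
    have g1 := geom_le hn1 (by linarith) M
    have g0 : 0 ≤ ∑ l ∈ Finset.range M, ‖a 1‖ ^ l := Finset.sum_nonneg fun i _ => pow_nonneg hn1 i
    have g2 : ‖a 0‖ * (∑ l ∈ Finset.range M, ‖a 1‖ ^ l) ^ 2 ≤ ‖a 0‖ * ((1 - ‖a 1‖)⁻¹) ^ 2 :=
      mul_le_mul_of_nonneg_left (pow_le_pow_left₀ g0 g1 2) hn0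
    have g3 : 0 ≤ ‖a 0‖ * (∑ l ∈ Finset.range M, ‖a 1‖ ^ l) ^ 2 := by positivity
    have ht := (hasSum_geometric_of_lt_one g3 (by linarith)).tendsto_sum_nat
    have ht2 := ht.add_const (∑ l ∈ Finset.range M, ‖a 1‖ ^ l)
    exact le_of_tendsto' ht2 (fun k => key M k)
  -- `M → ∞`
  have ht := (hasSum_geometric_of_lt_one hn1 (by linarith)).tendsto_sum_nat
  have hc : ContinuousAt (fun t : ℝ => (1 - ‖a 0‖ * t ^ 2)⁻¹ + t) ((1 - ‖a 1‖)⁻¹) :=
    ContinuousAt.add (ContinuousAt.inv₀ (by fun_prop) h2.ne') continuousAt_id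
  exact le_of_tendsto' (hc.tendsto.comp ht) key2

lemma u_exh (c : ℝ) : IsCompact {z ∈ D | u z ≤ c} := by
  set c' := max c 1 with hc'
  have hc1 : 1 ≤ c' := le_max_right _ _
  have hc0 : 0 < c' := by linarith
  set F : Set (Cn 2) := {p | c'⁻¹ ≤ 1 - ‖p 1‖ ∧ c'⁻¹ * (1 - ‖p 1‖) ^ 2 ≤ (1 - ‖p 1‖) ^ 2 - ‖p 0‖}
    with hF
  have hFc : IsClosed F := by
    have h1 : IsClosed {p : Cn 2 | c'⁻¹ ≤ 1 - ‖p 1‖} := isClosed_le (by fun_prop) (by fun_prop)
    have h2 : IsClosed {p : Cn 2 | c'⁻¹ * (1 - ‖p 1‖) ^ 2 ≤ (1 - ‖p 1‖) ^ 2 - ‖p 0‖} :=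
      isClosed_le (by fun_prop) (by fun_prop)
    exact h1.inter h2
  have hFD : F ⊆ D := by
    rintro p ⟨h1, h2⟩
    have h3 : 0 < c'⁻¹ := by positivity
    have h4 : 0 < 1 - ‖p 1‖ := by linarith
    have h5 : 0 < c'⁻¹ * (1 - ‖p 1‖) ^ 2 := by positivity
    exact ⟨by linarith, by linarith⟩
  have heq : {z ∈ D | u z ≤ c} = {z ∈ F | u z ≤ c} := by
    ext p
    constructor
    · rintro ⟨hp, hu⟩
      refine ⟨?_, hu⟩
      obtain ⟨h1, h2⟩ := aux hp
      have hu2 : u p ≤ c' := hu.trans (le_max_left _ _)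
      unfold u at hu2
      have i1 : 0 < (1 - ‖p 1‖)⁻¹ := inv_pos.2 h1
      have i2 : 0 < (1 - ‖p 0‖ * ((1 - ‖p 1‖)⁻¹) ^ 2)⁻¹ := inv_pos.2 h2
      have j1 : (1 - ‖p 1‖)⁻¹ ≤ c' := by linarith
      have j2 : (1 - ‖p 0‖ * ((1 - ‖p 1‖)⁻¹) ^ 2)⁻¹ ≤ c' := by linarith
      have k1 : c'⁻¹ ≤ 1 - ‖p 1‖ := by
        have := inv_anti₀ i1 j1
        rwa [inv_inv] at this
      have k2 : c'⁻¹ ≤ 1 - ‖p 0‖ * ((1 - ‖p 1‖)⁻¹) ^ 2 := by
        have := inv_anti₀ i2 j2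
        rwa [inv_inv] at this
      refine ⟨k1, ?_⟩
      have h3 : (1 - ‖p 0‖ * ((1 - ‖p 1‖)⁻¹) ^ 2) * (1 - ‖p 1‖) ^ 2 = (1 - ‖p 1‖) ^ 2 - ‖p 0‖ := by
        field_simp
      rw [← h3]
      exact mul_le_mul_of_nonneg_right k2 (by positivity)
    · rintro ⟨hp, hu⟩
      exact ⟨hFD hp, hu⟩
  rw [heq]
  refine Metric.isCompact_of_isClosed_isBounded ?_ (D_bdd.subset fun p hp => hFD hp.1)
  exact (u_cont.mono hFD).preimage_isClosed_of_isClosed hFc isClosed_Iic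

lemma D_pseudoconvex : IsPseudoconvex D := ⟨D_open, u, u_cont, u_mean, u_exh⟩

/-- the boundary point `(0, 1)` -/
noncomputable def ζ₀ : Cn 2 := WithLp.toLp 2 ![0, 1]

/-- the points `(z, w)` -/
noncomputable def pt (z w : ℂ) : Cn 2 := WithLp.toLp 2 ![z, w]

lemma pt_zero (z w : ℂ) : pt z w 0 = z := rfl
lemma pt_one (z w : ℂ) : pt z w 1 = w := rfl

lemma pt_cont : Continuous (fun q : ℂ × ℂ => pt q.1 q.2) := by
  have : Continuous (fun q : ℂ × ℂ => (![q.1, q.2] : Fin 2 → ℂ)) := by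
    refine continuous_pi fun i => ?_
    fin_cases i
    · exact continuous_fst
    · exact continuous_snd
  exact (PiLp.continuous_toLp 2 _).comp this

lemma pt_mem {r : ℝ} (h0 : 0 ≤ r) (h1 : r < 1) : pt 0 r ∈ D := by
  refine ⟨?_, ?_⟩
  · rw [pt_one, Complex.norm_real, Real.norm_of_nonneg h0]; exact h1
  · rw [pt_zero, pt_one, norm_zero, Complex.norm_real, Real.norm_of_nonneg h0]
    have : 0 < 1 - r := by linarith
    positivity

lemma ζ₀_mem : ζ₀ ∈ frontier D := by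
  rw [D_open.frontier_eq]
  refine ⟨?_, ?_⟩
  · have h1 : Tendsto (fun r : ℝ => pt 0 r) (𝓝[<] 1) (𝓝 (pt 0 (1 : ℝ))) := by
      have : Continuous (fun r : ℝ => pt 0 r) :=
        pt_cont.comp (continuous_const.prodMk Complex.continuous_ofReal)
      exact this.continuousAt.tendsto.mono_left nhdsWithin_le_nhds
    have h2 : pt 0 (1 : ℝ) = ζ₀ := by
      unfold pt ζ₀; simp
    rw [h2] at h1
    refine mem_closure_of_tendsto h1 ?_
    filter_upwards [Ioo_mem_nhdsLT (show (0 : ℝ) < 1 by norm_num)] with r hr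
    exact pt_mem hr.1.le hr.2
  · rintro ⟨h1, _⟩
    have : ζ₀ 1 = 1 := rfl
    rw [this, norm_one] at h1
    exact lt_irrefl _ h1

lemma edge_mem {r : ℝ} (h0 : 0 ≤ r) (h1 : r < 1) : pt (((1 - r) ^ 2 : ℝ) : ℂ) r ∈ frontier D := by
  rw [D_open.frontier_eq]
  have hr : 0 < 1 - r := by linarith
  refine ⟨?_, ?_⟩
  · have h2 : Tendsto (fun t : ℝ => pt ((t * (1 - r) ^ 2 : ℝ) : ℂ) r) (𝓝[<] 1)
        (𝓝 (pt ((1 * (1 - r) ^ 2 : ℝ) : ℂ) r)) := by
      have : Continuous (fun t : ℝ => pt ((t * (1 - r) ^ 2 : ℝ) : ℂ) r) :=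
        pt_cont.comp ((Complex.continuous_ofReal.comp (by fun_prop)).prodMk continuous_const)
      exact this.continuousAt.tendsto.mono_left nhdsWithin_le_nhds
    rw [one_mul] at h2
    refine mem_closure_of_tendsto h2 ?_
    filter_upwards [Ioo_mem_nhdsLT (show (0 : ℝ) < 1 by norm_num)] with t ht
    refine ⟨?_, ?_⟩
    · rw [pt_one, Complex.norm_real, Real.norm_of_nonneg h0]; exact h1
    · rw [pt_zero, pt_one, Complex.norm_real, Complex.norm_real, Real.norm_of_nonneg h0,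
        Real.norm_of_nonneg (by have := ht.1; positivity)]
      have : 0 < (1 - r) ^ 2 := by positivity
      nlinarith [ht.2]
  · rintro ⟨_, h2⟩
    rw [pt_zero, pt_one, Complex.norm_real, Complex.norm_real, Real.norm_of_nonneg h0,
      Real.norm_of_nonneg (by positivity)] at h2
    exact lt_irrefl _ h2

lemma bdist_le {r : ℝ} (h0 : 0 ≤ r) (h1 : r < 1) : bdist D (pt 0 r) ≤ (1 - r) ^ 2 := by
  unfold bdist
  refine (infDist_le_dist_of_mem (edge_mem h0 h1)).trans (le_of_eq ?_)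
  rw [EuclideanSpace.dist_eq, Fin.sum_univ_two, pt_zero, pt_zero, pt_one, pt_one, dist_self,
    dist_zero_left, Complex.norm_real, Real.norm_of_nonneg (by positivity)]
  rw [zero_pow (by norm_num), add_zero, Real.sqrt_sq (by positivity)]

lemma bdist_pos {r : ℝ} (h0 : 0 ≤ r) (h1 : r < 1) : 0 < bdist D (pt 0 r) := by
  unfold bdist
  rw [← isClosed_frontier.notMem_iff_infDist_pos ⟨ζ₀, ζ₀_mem⟩]
  intro h
  rw [D_open.frontier_eq] at h
  exact h.2 (pt_mem h0 h1)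

lemma kob_le {r : ℝ} (h0 : 0 ≤ r) (h1 : r < 1) :
    kobayashi D 0 (pt 0 r) ≤ ENNReal.ofReal ((1 / 2) * Real.log ((1 + r) / (1 - r))) := by
  unfold kobayashi
  refine iInf_le_of_le 1 (iInf_le_of_le ![0, pt 0 r] (iInf_le_of_le (fun _ ζ => pt 0 ζ)
    (iInf_le_of_le (fun _ => 0) (iInf_le_of_le (fun _ => (r : ℂ)) (iInf_le_of_le ?_ ?_)))))
  · refine ⟨rfl, rfl, fun j => ⟨?_, ?_, ?_, ?_, ?_, ?_⟩⟩
    · have : Differentiable ℂ (fun ζ : ℂ => pt 0 ζ) := by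
        rw [differentiable_euclidean]
        intro i
        fin_cases i
        · exact differentiable_const _
        · exact differentiable_id
      exact this.differentiableOn
    · intro ζ hζ
      rw [mem_ball_zero_iff] at hζ
      refine ⟨?_, ?_⟩
      · rw [pt_one]; exact hζ
      · rw [pt_zero, pt_one, norm_zero]
        have : 0 < 1 - ‖ζ‖ := by linarith
        positivity
    · simp
    · rw [mem_ball_zero_iff, Complex.norm_real, Real.norm_of_nonneg h0]; exact h1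
    · have : j = 0 := Subsingleton.elim _ _
      subst this
      show pt 0 0 = 0
      ext i
      fin_cases i <;> rfl
    · have : j = 0 := Subsingleton.elim _ _
      subst this
      rfl
  · rw [Fin.sum_univ_one]
    unfold poincare
    rw [zero_sub, norm_neg, map_zero, zero_mul, sub_zero, norm_one, div_one, Complex.norm_real,
      Real.norm_of_nonneg h0]

lemma N_zero : N D ζ₀ = 0 := by
  unfold N
  have : {j : Fin 2 | ζ₀ j = 0 ∧ ∀ z ∈ D, z j ≠ 0} = ∅ := by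
    rw [Set.eq_empty_iff_forall_notMem]
    rintro j ⟨_, h2⟩
    exact h2 0 zero_mem (by simp)
  rw [this, Set.ncard_empty]

lemma not_lower : ¬ LowerEstimate D 0 ζ₀ (fun t => -(1 / 2) * Real.log t) := by
  rintro ⟨U, hU, C, h⟩
  have h1 : Tendsto (fun r : ℝ => pt 0 r) (𝓝[<] 1) (𝓝 ζ₀) := by
    have : Continuous (fun r : ℝ => pt 0 r) :=
      pt_cont.comp (continuous_const.prodMk Complex.continuous_ofReal)
    have h2 : pt 0 (1 : ℝ) = ζ₀ := by
      unfold pt ζ₀; simp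
    rw [← h2]
    exact this.continuousAt.tendsto.mono_left nhdsWithin_le_nhds
  have h2 : Tendsto (fun r : ℝ => -Real.log (1 - r)) (𝓝[<] 1) atTop := by
    have h3 : Tendsto (fun r : ℝ => 1 - r) (𝓝[<] 1) (𝓝[>] 0) := by
      have h4 : Tendsto (fun r : ℝ => 1 - r) (𝓝[<] 1) (𝓝 (1 - 1)) :=
        ((continuous_const.sub continuous_id).tendsto (1 : ℝ)).mono_left nhdsWithin_le_nhds
      rw [sub_self] at h4
      refine tendsto_nhdsWithin_iff.2 ⟨h4, ?_⟩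
      filter_upwards [self_mem_nhdsWithin] with r hr
      rw [Set.mem_Iio] at hr
      rw [Set.mem_Ioi]
      linarith
    exact tendsto_neg_atBot_atTop.comp (Real.tendsto_log_nhdsGT_zero.comp h3)
  have h3 : ∀ᶠ r : ℝ in 𝓝[<] 1, Real.log 2 - 2 * C < -Real.log (1 - r) ∧
      -C < -Real.log (1 - r) :=
    (h2.eventually_gt_atTop _).and (h2.eventually_gt_atTop _)
  have hI : ∀ᶠ r in 𝓝[<] (1 : ℝ), r ∈ Set.Ioo (0 : ℝ) 1 :=
    Ioo_mem_nhdsLT (show (0 : ℝ) < 1 by norm_num)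
  obtain ⟨r, hrU, ⟨hr0, hr1⟩, h4, h5⟩ := ((h1.eventually hU).and (hI.and h3)).exists
  have hr' : 0 < 1 - r := by linarith
  have h6 := (h _ ⟨pt_mem hr0.le hr1, hrU⟩).trans (kob_le hr0.le hr1)
  have h7 : 0 ≤ (1 / 2) * Real.log ((1 + r) / (1 - r)) := by
    refine mul_nonneg (by norm_num) (Real.log_nonneg ?_)
    rw [le_div_iff₀ hr']
    linarith
  rw [ENNReal.ofReal_le_ofReal_iff h7] at h6
  have h8 : Real.log (bdist D (pt 0 r)) ≤ 2 * Real.log (1 - r) := by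
    have := Real.log_le_log (bdist_pos hr0.le hr1) (bdist_le hr0.le hr1)
    rwa [Real.log_pow, Nat.cast_ofNat] at this
  have h9 : Real.log ((1 + r) / (1 - r)) ≤ Real.log 2 - Real.log (1 - r) := by
    rw [Real.log_div (by linarith) hr'.ne']
    have := Real.log_le_log (by linarith : 0 < 1 + r) (by linarith : 1 + r ≤ 2)
    linarith
  linarith

/-- **Q1 is false.** There are a bounded pseudoconvex Reinhardt domain `D ⊂ ℂ²` containing the origin
and a boundary point `ζ₀` with `N(ζ₀) = 0` such that the estimate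
`k_D(0, z) ≥ -(1/2) log d_D(z) + C` for `z ∈ D` near `ζ₀` fails. In particular `¬ Q1`. -/
theorem result : (∃ D : Set (Cn 2), IsOpen D ∧ IsConnected D ∧ Bornology.IsBounded D ∧
      IsPseudoconvex D ∧ IsReinhardt D ∧ (0 : Cn 2) ∈ D ∧ ∃ ζ₀ ∈ frontier D, N D ζ₀ = 0 ∧
        ¬ LowerEstimate D 0 ζ₀ (fun t => -(1 / 2) * Real.log t)) ∧ ¬ Q1 := by
  refine ⟨⟨D, D_open, D_conn, D_bdd, D_pseudoconvex, D_reinhardt, zero_mem, ζ₀, ζ₀_mem, N_zero,
    not_lower⟩, fun h => ?_⟩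
  exact not_lower ((h 2 (by norm_num) D D_open D_conn D_pseudoconvex D_reinhardt 0 zero_mem ζ₀
    ζ₀_mem).1 N_zero)

end Pool.Agent.Results.MP_32da07_an.CuspCounterexample
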